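import Pool.Agent.Helper64.AS.Defs

/-!
# Bound of the kernel of a set of primes
-/

set_option autoImplicit false

open Finset

namespace Pool.Agent.Helper34.AS

open Pool.Agent.Helper64.AS

/-- reduced residues -/
def Rd (d : ℕ) : Finset ℕ := (range d).filter (Nat.Coprime d)

theorem ee_sum (h : S_fej) {ι : Type*} (s : Finset ι) (f : ι → ℝ) :
    ee (∑ i ∈ s, f i) = ∏ i ∈ s, ee (f i) := by
  classical
  induction s using Finset.induction_on with
  | empty =>
    rw [sum_empty, prod_empty]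
    have := h.2.2.1 0
    simpa using this
  | insert a s ha ih =>
    rw [sum_insert ha, prod_insert ha, h.1, ih]

/-- the Chinese remainder map -/
def crt (q d : ℕ) (p : ℕ × ℕ) : ℕ := (p.1 * q + p.2 * d) % (q * d)

theorem crt_mem {q d : ℕ} (hq : 0 < q) (hd : 0 < d) (hqd : Nat.Coprime q d) {p : ℕ × ℕ}
    (h1 : p.1 ∈ Rd d) (h2 : p.2 ∈ Rd q) : crt q d p ∈ Rd (q * d) := by
  unfold Rd at *
  rw [mem_filter, mem_range] at *
  refine ⟨Nat.mod_lt _ (Nat.mul_pos hq hd), ?_⟩
  have e : Nat.Coprime (q * d) (p.1 * q + p.2 * d) := by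
    apply Nat.Coprime.mul_left
    · rw [Nat.coprime_mul_right_add_right]
      exact Nat.Coprime.mul_right h2.2 hqd
    · rw [Nat.coprime_add_mul_right_right]
      exact Nat.Coprime.mul_right h1.2 hqd.symm
  have e2 : p.1 * q + p.2 * d = crt q d p + (q * d) * ((p.1 * q + p.2 * d) / (q * d)) :=
    (Nat.mod_add_div _ _).symm
  rw [e2, Nat.coprime_add_mul_left_right] at e
  exact e

theorem crt_inj {q d : ℕ} (hqd : Nat.Coprime q d) {p p' : ℕ × ℕ}
    (h1 : p.1 ∈ Rd d) (h2 : p.2 ∈ Rd q) (h1' : p'.1 ∈ Rd d) (h2' : p'.2 ∈ Rd q)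
    (h : crt q d p = crt q d p') : p = p' := by
  unfold Rd at *
  rw [mem_filter, mem_range] at *
  have h0 : p.1 * q + p.2 * d ≡ p'.1 * q + p'.2 * d [MOD q * d] := h
  have a1 : p.1 * q ≡ p'.1 * q [MOD d] := by
    have := Nat.ModEq.of_mul_left q h0
    unfold Nat.ModEq at *
    rw [Nat.add_mul_mod_self_right, Nat.add_mul_mod_self_right] at this
    exact this
  have a2 : p.2 * d ≡ p'.2 * d [MOD q] := by
    have := Nat.ModEq.of_mul_right d h0
    unfold Nat.ModEq at *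
    rw [Nat.add_comm, Nat.add_mul_mod_self_right, Nat.add_comm (p'.1 * q),
      Nat.add_mul_mod_self_right] at this
    exact this
  have b1 : p.1 ≡ p'.1 [MOD d] := Nat.ModEq.cancel_right_of_coprime hqd.symm a1
  have b2 : p.2 ≡ p'.2 [MOD q] := Nat.ModEq.cancel_right_of_coprime hqd a2
  exact Prod.ext (Nat.ModEq.eq_of_lt_of_lt b1 h1.1 h1'.1) (Nat.ModEq.eq_of_lt_of_lt b2 h2.1 h2'.1)

theorem ee_crt (h : S_fej) {q d : ℕ} (hq : 0 < q) (hd : 0 < d) (p : ℕ × ℕ) (l : ℤ) :
    ee ((crt q d p : ℝ) * l / ((q * d : ℕ) : ℝ)) =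
      ee ((p.2 : ℝ) * l / q) * ee ((p.1 : ℝ) * l / d) := by
  have e2 : p.1 * q + p.2 * d = crt q d p + (q * d) * ((p.1 * q + p.2 * d) / (q * d)) :=
    (Nat.mod_add_div _ _).symm
  obtain ⟨k, hk⟩ : ∃ k : ℕ, k = (p.1 * q + p.2 * d) / (q * d) := ⟨_, rfl⟩
  rw [← hk] at e2
  have hq0 : (q : ℝ) ≠ 0 := by positivity
  have hd0 : (d : ℝ) ≠ 0 := by positivity
  have e3 : (p.1 : ℝ) * q + p.2 * d = crt q d p + (q * d) * k := by exact_mod_cast e2
  have e4 : (crt q d p : ℝ) * l / ((q * d : ℕ) : ℝ) + ((k * l : ℤ) : ℝ) =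
      (p.2 : ℝ) * l / q + (p.1 : ℝ) * l / d := by
    push_cast
    field_simp
    linear_combination (-(l : ℝ)) * e3
  have e5 := h.1 ((crt q d p : ℝ) * l / ((q * d : ℕ) : ℝ)) ((k * l : ℤ) : ℝ)
  rw [h.2.2.1, mul_one] at e5
  rw [← e5, e4, h.1]

/-- Expansion of `phi` in additive characters. -/
theorem phi_expand (hpsi : S_psi) (hfej : S_fej) (ε : ℝ) (hε : ε = 0 ∨ ε = 1) (A : Finset ℕ)
    (hA : ∀ p ∈ A, p.Prime ∧ p ≠ 2) :
    ∃ C : Finset ℕ → ℕ → ℂ,
      (∀ l : ℤ, ((phi ε A l : ℝ) : ℂ) = ∑ s ∈ A.powerset, ∑ a ∈ Rd (∏ p ∈ s, p),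
        C s a * ee ((a : ℝ) * l / ((∏ p ∈ s, p : ℕ) : ℝ))) ∧
      ∀ s ∈ A.powerset, ∀ a, ‖C s a‖ ≤ (∏ p ∈ A \ s, ε / p) *
        (∏ p ∈ s, (1 + 1 / Real.sqrt p)) / Real.sqrt ((∏ p ∈ s, p : ℕ) : ℝ) := by
  classical
  induction A using Finset.induction_on with
  | empty =>
    refine ⟨fun _ _ => 1, ?_, ?_⟩
    · intro l
      have h1 : Rd 1 = {0} := by decide
      simp only [powerset_empty, sum_singleton, prod_empty, h1]
      unfold phi
      have := hfej.2.2.1 0
      simp at this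
      simp [this]
    · intro s hs a
      rw [powerset_empty, mem_singleton] at hs
      subst hs
      simp
  | insert q A hqA ih =>
    obtain ⟨C, hC1, hC2⟩ := ih fun p hp => hA p (mem_insert_of_mem hp)
    obtain ⟨hq, hq2⟩ := hA q (mem_insert_self q A)
    obtain ⟨c, hc1, hc2, hc3⟩ := hpsi.1 q ε hq hq2 hε
    have hε0 : 0 ≤ ε := by rcases hε with h | h <;> rw [h] <;> norm_num
    have hqpos : (0 : ℝ) < q := Nat.cast_pos.mpr hq.pos
    -- facts about `s ⊆ A`
    have hsA : ∀ s ∈ A.powerset, q ∉ s := fun s hs hqs => hqA (mem_powerset.mp hs hqs)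
    have hpos : ∀ s ∈ A.powerset, 0 < ∏ p ∈ s, p := fun s hs =>
      prod_pos fun p hp => (hA p (mem_insert_of_mem (mem_powerset.mp hs hp))).1.pos
    have hcop : ∀ s ∈ A.powerset, Nat.Coprime q (∏ p ∈ s, p) := fun s hs =>
      Nat.Coprime.prod_right fun p hp => by
        have hp' := mem_powerset.mp hs hp
        rw [Nat.coprime_primes hq (hA p (mem_insert_of_mem hp')).1]
        rintro rfl
        exact hqA hp'
    refine ⟨fun s a => if q ∈ s then
      ∑ p ∈ (Rd (∏ p ∈ s.erase q, p) ×ˢ Rd q).filter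
        (fun p => crt q (∏ p ∈ s.erase q, p) p = a), c p.2 * C (s.erase q) p.1
      else c 0 * C s a, ?_, ?_⟩
    · intro l
      have e1 : ((phi ε (insert q A) l : ℝ) : ℂ) =
          ((psi ε q l : ℝ) : ℂ) * ((phi ε A l : ℝ) : ℂ) := by
        unfold phi
        rw [prod_insert hqA]
        push_cast
        rfl
      have e3 : range q = insert 0 (Rd q) := by
        ext m
        unfold Rd
        rw [mem_insert, mem_filter, mem_range]
        constructor
        · intro hm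
          rcases Nat.eq_zero_or_pos m with h0 | h0
          · exact Or.inl h0
          · exact Or.inr ⟨hm, Nat.coprime_of_lt_prime h0.ne' hm hq⟩
        · rintro (h | h)
          · rw [h]; exact hq.pos
          · exact h.1
      have e4 : (0 : ℕ) ∉ Rd q := by
        unfold Rd
        rw [mem_filter]
        rintro ⟨-, h⟩
        rw [Nat.coprime_zero_right] at h
        exact hq.one_lt.ne' h
      have e2 : ((psi ε q l : ℝ) : ℂ) = c 0 + ∑ h ∈ Rd q, c h * ee ((h : ℝ) * l / q) := by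
        rw [hc1 l, e3, sum_insert e4]
        congr 1
        have := hfej.2.2.1 0
        simp at this
        simp [this]
      rw [e1, e2, hC1 l, sum_powerset_insert hqA, add_mul]
      congr 1
      · rw [mul_sum]
        refine sum_congr rfl fun s hs => ?_
        rw [mul_sum]
        refine sum_congr rfl fun a _ => ?_
        simp only [if_neg (hsA s hs)]
        ring
      · rw [mul_sum]
        refine sum_congr rfl fun s hs => ?_
        have f1 : (insert q s).erase q = s := erase_insert (hsA s hs)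
        have f2 : ∏ p ∈ insert q s, p = q * ∏ p ∈ s, p := prod_insert (hsA s hs)
        simp only [mem_insert_self, if_true, f1, f2]
        obtain ⟨d, hd⟩ : ∃ d : ℕ, d = ∏ p ∈ s, p := ⟨_, rfl⟩
        have hdpos : 0 < d := by rw [hd]; exact hpos s hs
        have hdcop : Nat.Coprime q d := by rw [hd]; exact hcop s hs
        rw [← hd]
        have f3 : ∑ a ∈ Rd (q * d), (∑ p ∈ (Rd d ×ˢ Rd q).filter (fun p => crt q d p = a),
            c p.2 * C s p.1) * ee ((a : ℝ) * l / ((q * d : ℕ) : ℝ)) =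
            ∑ a ∈ Rd (q * d), ∑ p ∈ (Rd d ×ˢ Rd q).filter (fun p => crt q d p = a),
              (c p.2 * ee ((p.2 : ℝ) * l / q)) * (C s p.1 * ee ((p.1 : ℝ) * l / d)) := by
          refine sum_congr rfl fun a _ => ?_
          rw [sum_mul]
          refine sum_congr rfl fun p hp => ?_
          rw [mem_filter] at hp
          rw [← hp.2, ee_crt hfej hq.pos hdpos p l]
          ring
        rw [f3, sum_fiberwise_of_maps_to]
        · rw [sum_product, sum_mul_sum, sum_comm]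
        · intro p hp
          rw [mem_product] at hp
          exact crt_mem hq.pos hdpos hdcop hp.1 hp.2
    · intro s hs a
      by_cases hqs : q ∈ s
      · simp only [if_pos hqs]
        obtain ⟨s', hs'⟩ : ∃ s' : Finset ℕ, s' = s.erase q := ⟨_, rfl⟩
        have g1 : s' ∈ A.powerset := by
          rw [mem_powerset, hs']
          intro p hp
          rw [mem_erase] at hp
          exact (mem_insert.mp (mem_powerset.mp hs hp.2)).resolve_left hp.1
        have g2 : s = insert q s' := by rw [hs', insert_erase hqs]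
        have g3 : insert q A \ s = A \ s' := by
          ext p
          rw [g2, mem_sdiff, mem_insert, mem_insert, mem_sdiff]
          constructor
          · rintro ⟨h1, h2⟩
            push Not at h2
            exact ⟨h1.resolve_left h2.1, h2.2⟩
          · rintro ⟨h1, h2⟩
            refine ⟨Or.inr h1, ?_⟩
            rintro (h3 | h3)
            · rw [h3] at h1; exact hqA h1
            · exact h2 h3
        have g4 : ∏ p ∈ s, p = q * ∏ p ∈ s', p := by rw [g2, prod_insert (hsA s' g1)]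
        have g5 : ∏ p ∈ s, (1 + 1 / Real.sqrt (p : ℝ)) =
            (1 + 1 / Real.sqrt (q : ℝ)) * ∏ p ∈ s', (1 + 1 / Real.sqrt (p : ℝ)) := by
          rw [g2, prod_insert (hsA s' g1)]
        rw [← hs', g3, g4, g5]
        obtain ⟨d, hd⟩ : ∃ d : ℕ, d = ∏ p ∈ s', p := ⟨_, rfl⟩
        have hdpos : 0 < d := by rw [hd]; exact hpos s' g1
        have hdcop : Nat.Coprime q d := by rw [hd]; exact hcop s' g1
        have hb := hC2 s' g1
        rw [← hd] at hb ⊢
        have h0 : (0 : ℝ) ≤ (∏ p ∈ A \ s', ε / p) *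
            (∏ p ∈ s', (1 + 1 / Real.sqrt p)) / Real.sqrt (d : ℝ) :=
          (norm_nonneg _).trans (hb 0)
        have g6 : ((Rd d ×ˢ Rd q).filter (fun p => crt q d p = a)).card ≤ 1 := by
          rw [card_le_one]
          intro p hp p' hp'
          rw [mem_filter, mem_product] at hp hp'
          exact crt_inj hdcop hp.1.1 hp.1.2 hp'.1.1 hp'.1.2 (hp.2.trans hp'.2.symm)
        have g7 : ‖∑ p ∈ (Rd d ×ˢ Rd q).filter (fun p => crt q d p = a), c p.2 * C s' p.1‖ ≤
            (((Rd d ×ˢ Rd q).filter (fun p => crt q d p = a)).card : ℝ) *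
              (((1 + 1 / Real.sqrt q) / Real.sqrt q) * ((∏ p ∈ A \ s', ε / p) *
            (∏ p ∈ s', (1 + 1 / Real.sqrt p)) / Real.sqrt (d : ℝ))) := by
          rw [← nsmul_eq_mul, ← sum_const]
          refine (norm_sum_le _ _).trans (sum_le_sum fun p hp => ?_)
          rw [mem_filter, mem_product] at hp
          have hp2 := hp.1.2
          unfold Rd at hp2
          rw [mem_filter, mem_range] at hp2
          have hp3 : 0 < p.2 := by
            rcases Nat.eq_zero_or_pos p.2 with h3 | h3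
            · rw [h3, Nat.coprime_zero_right] at hp2
              exact absurd hp2.2 hq.one_lt.ne'
            · exact h3
          rw [norm_mul]
          exact mul_le_mul (hc3 p.2 hp3 hp2.1) (hb p.1) (norm_nonneg _) (by positivity)
        have g8 : (((Rd d ×ˢ Rd q).filter (fun p => crt q d p = a)).card : ℝ) ≤ 1 := by
          exact_mod_cast g6
        refine g7.trans ((mul_le_mul_of_nonneg_right g8 (by positivity)).trans (le_of_eq ?_))
        rw [Nat.cast_mul, Real.sqrt_mul hqpos.le]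
        generalize (∏ p ∈ A \ s', ε / (p : ℝ)) = x1
        generalize (∏ p ∈ s', (1 + 1 / Real.sqrt (p : ℝ))) = x2
        ring
      · simp only [if_neg hqs]
        have g1 : s ∈ A.powerset := by
          rw [mem_powerset]
          intro p hp
          refine (mem_insert.mp (mem_powerset.mp hs hp)).resolve_left ?_
          rintro rfl
          exact hqs hp
        have g3 : insert q A \ s = insert q (A \ s) := by
          rw [insert_sdiff_of_notMem _ hqs]
        have g4 : q ∉ A \ s := fun h => hqA (mem_sdiff.mp h).1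
        rw [g3, prod_insert g4, norm_mul]
        calc ‖c 0‖ * ‖C s a‖ ≤ (ε / q) * ((∏ p ∈ A \ s, ε / p) *
              (∏ p ∈ s, (1 + 1 / Real.sqrt p)) / Real.sqrt ((∏ p ∈ s, p : ℕ) : ℝ)) :=
              mul_le_mul hc2 (hC2 s g1 a) (norm_nonneg _) (by positivity)
          _ = _ := by ring

/-- The sum over the space frequencies factors. -/
theorem space_factor (hfej : S_fej) (r M' : ℕ) (θ : ℝ) (x : Fin r → ℝ) :
    ∑ I ∈ IJ r M', ∑ J ∈ IJ r M', ee (∑ l, (((I l : ℝ) - J l) * x l - ((I l : ℝ) - J l) ^ 2 * θ)) =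
      ∏ l, ∑ i ∈ range M', ∑ j ∈ range M', ee (((i : ℝ) - j) * x l - ((i : ℝ) - j) ^ 2 * θ) := by
  classical
  have h1 : ∀ I : Fin r → ℕ, ∑ J ∈ IJ r M',
      ee (∑ l, (((I l : ℝ) - J l) * x l - ((I l : ℝ) - J l) ^ 2 * θ)) =
      ∏ l, ∑ j ∈ range M', ee (((I l : ℝ) - j) * x l - ((I l : ℝ) - j) ^ 2 * θ) := by
    intro I
    rw [prod_univ_sum (fun _ : Fin r => range M')
      (fun l j => ee (((I l : ℝ) - j) * x l - ((I l : ℝ) - j) ^ 2 * θ))]
    refine sum_congr rfl fun J _ => ?_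
    rw [ee_sum hfej]
  rw [prod_univ_sum (fun _ : Fin r => range M')
      (fun l i => ∑ j ∈ range M', ee (((i : ℝ) - j) * x l - ((i : ℝ) - j) ^ 2 * θ))]
  exact sum_congr rfl fun I _ => h1 I

/-- The contribution of one rational. -/
theorem KA_term (hfej : S_fej) (r M M' : ℕ) (k₀ : ℤ) (θ t : ℝ) (x : Fin r → ℝ) :
    ∑ i ∈ range M, ∑ j ∈ range M, ∑ I ∈ IJ r M', ∑ J ∈ IJ r M',
      ee (θ * ((k₀ + i - j - ∑ l, ((I l : ℤ) - J l) ^ 2 : ℤ) : ℝ)) *
        ee (∑ l, ((I l : ℝ) - J l) * x l - (k₀ + i - j) * t) =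
      (ee (k₀ * (θ - t)) * ∑ i ∈ range M, ∑ j ∈ range M, ee (((i : ℝ) - j) * (θ - t))) *
      ∏ l, ∑ i ∈ range M', ∑ j ∈ range M', ee (((i : ℝ) - j) * x l - ((i : ℝ) - j) ^ 2 * θ) := by
  rw [← space_factor hfej]
  obtain ⟨S, hS⟩ : ∃ S : ℂ, S = ∑ I ∈ IJ r M', ∑ J ∈ IJ r M',
      ee (∑ l, (((I l : ℝ) - J l) * x l - ((I l : ℝ) - J l) ^ 2 * θ)) := ⟨_, rfl⟩
  have h1 : ∀ i j : ℕ, ∑ I ∈ IJ r M', ∑ J ∈ IJ r M',
      ee (θ * ((k₀ + i - j - ∑ l, ((I l : ℤ) - J l) ^ 2 : ℤ) : ℝ)) *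
        ee (∑ l, ((I l : ℝ) - J l) * x l - (k₀ + i - j) * t) =
      (ee (k₀ * (θ - t)) * ee (((i : ℝ) - j) * (θ - t))) * S := by
    intro i j
    rw [hS, mul_sum]
    refine sum_congr rfl fun I _ => ?_
    rw [mul_sum]
    refine sum_congr rfl fun J _ => ?_
    rw [← hfej.1, ← hfej.1, ← hfej.1]
    congr 1
    rw [sum_sub_distrib, ← sum_mul]
    push_cast
    ring
  rw [← hS, sum_congr rfl fun i _ => sum_congr rfl fun j _ => h1 i j, mul_sum, sum_mul]
  refine sum_congr rfl fun i _ => ?_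
  rw [mul_sum, sum_mul]

theorem KA_bound (hpsi : S_psi) (hfej : S_fej) (hweyl : S_weyl) : S_KA := by
  intro r M M' k₀ ε A t x hM hM' hε hA
  classical
  obtain ⟨C, hC1, hC2⟩ := phi_expand hpsi hfej ε hε A hA
  have e1 : KA r M M' k₀ ε A t x = ∑ s ∈ A.powerset, ∑ a ∈ Rd (∏ p ∈ s, p), C s a *
      ((ee (k₀ * ((a : ℝ) / ((∏ p ∈ s, p : ℕ) : ℝ) - t)) * ∑ i ∈ range M, ∑ j ∈ range M,
          ee (((i : ℝ) - j) * ((a : ℝ) / ((∏ p ∈ s, p : ℕ) : ℝ) - t))) *
        ∏ l, ∑ i ∈ range M', ∑ j ∈ range M',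
          ee (((i : ℝ) - j) * x l - ((i : ℝ) - j) ^ 2 * ((a : ℝ) / ((∏ p ∈ s, p : ℕ) : ℝ)))) := by
    have e2 : KA r M M' k₀ ε A t x = ∑ i ∈ range M, ∑ j ∈ range M, ∑ I ∈ IJ r M', ∑ J ∈ IJ r M',
        ∑ s ∈ A.powerset, ∑ a ∈ Rd (∏ p ∈ s, p), C s a *
          (ee ((a : ℝ) / ((∏ p ∈ s, p : ℕ) : ℝ) *
            ((k₀ + i - j - ∑ l, ((I l : ℤ) - J l) ^ 2 : ℤ) : ℝ)) *
          ee (∑ l, ((I l : ℝ) - J l) * x l - (k₀ + i - j) * t)) := by
      unfold KA
      refine sum_congr rfl fun i _ => sum_congr rfl fun j _ => sum_congr rfl fun I _ =>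
        sum_congr rfl fun J _ => ?_
      rw [hC1, sum_mul]
      refine sum_congr rfl fun s _ => ?_
      rw [sum_mul]
      refine sum_congr rfl fun a _ => ?_
      rw [mul_assoc]
      congr 3
      ring
    rw [e2]
    -- move the sums over `s`, `a` to the front
    calc ∑ i ∈ range M, ∑ j ∈ range M, ∑ I ∈ IJ r M', ∑ J ∈ IJ r M',
        ∑ s ∈ A.powerset, ∑ a ∈ Rd (∏ p ∈ s, p), C s a *
          (ee ((a : ℝ) / ((∏ p ∈ s, p : ℕ) : ℝ) *
            ((k₀ + i - j - ∑ l, ((I l : ℤ) - J l) ^ 2 : ℤ) : ℝ)) *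
          ee (∑ l, ((I l : ℝ) - J l) * x l - (k₀ + i - j) * t))
        = ∑ s ∈ A.powerset, ∑ a ∈ Rd (∏ p ∈ s, p), ∑ i ∈ range M, ∑ j ∈ range M,
          ∑ I ∈ IJ r M', ∑ J ∈ IJ r M', C s a *
          (ee ((a : ℝ) / ((∏ p ∈ s, p : ℕ) : ℝ) *
            ((k₀ + i - j - ∑ l, ((I l : ℤ) - J l) ^ 2 : ℤ) : ℝ)) *
          ee (∑ l, ((I l : ℝ) - J l) * x l - (k₀ + i - j) * t)) := by
          have g1 : ∀ (G : ℕ → ℕ → (Fin r → ℕ) → (Fin r → ℕ) → Finset ℕ → ℕ → ℂ),
              ∑ i ∈ range M, ∑ j ∈ range M, ∑ I ∈ IJ r M', ∑ J ∈ IJ r M',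
                ∑ s ∈ A.powerset, ∑ a ∈ Rd (∏ p ∈ s, p), G i j I J s a =
              ∑ s ∈ A.powerset, ∑ a ∈ Rd (∏ p ∈ s, p), ∑ i ∈ range M, ∑ j ∈ range M,
                ∑ I ∈ IJ r M', ∑ J ∈ IJ r M', G i j I J s a := by
            intro G
            have k1 : ∀ i j I, ∑ J ∈ IJ r M', ∑ s ∈ A.powerset, ∑ a ∈ Rd (∏ p ∈ s, p),
                G i j I J s a = ∑ s ∈ A.powerset, ∑ a ∈ Rd (∏ p ∈ s, p),
                ∑ J ∈ IJ r M', G i j I J s a := by
              intro i j I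
              rw [sum_comm]
              exact sum_congr rfl fun s _ => sum_comm
            have k2 : ∀ i j, ∑ I ∈ IJ r M', ∑ J ∈ IJ r M', ∑ s ∈ A.powerset,
                ∑ a ∈ Rd (∏ p ∈ s, p), G i j I J s a = ∑ s ∈ A.powerset,
                ∑ a ∈ Rd (∏ p ∈ s, p), ∑ I ∈ IJ r M', ∑ J ∈ IJ r M', G i j I J s a := by
              intro i j
              rw [sum_congr rfl fun I _ => k1 i j I, sum_comm]
              exact sum_congr rfl fun s _ => sum_comm
            have k3 : ∀ i, ∑ j ∈ range M, ∑ I ∈ IJ r M', ∑ J ∈ IJ r M', ∑ s ∈ A.powerset,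
                ∑ a ∈ Rd (∏ p ∈ s, p), G i j I J s a = ∑ s ∈ A.powerset,
                ∑ a ∈ Rd (∏ p ∈ s, p), ∑ j ∈ range M, ∑ I ∈ IJ r M', ∑ J ∈ IJ r M',
                G i j I J s a := by
              intro i
              rw [sum_congr rfl fun j _ => k2 i j, sum_comm]
              exact sum_congr rfl fun s _ => sum_comm
            rw [sum_congr rfl fun i _ => k3 i, sum_comm]
            exact sum_congr rfl fun s _ => sum_comm
          exact g1 _
      _ = _ := by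
          refine sum_congr rfl fun s _ => sum_congr rfl fun a _ => ?_
          rw [← KA_term hfej r M M' k₀ _ t x]
          simp only [mul_sum]
  rw [e1]
  refine (norm_sum_le _ _).trans (sum_le_sum fun s hs => ?_)
  obtain ⟨d, hd⟩ : ∃ d : ℕ, d = ∏ p ∈ s, p := ⟨_, rfl⟩
  have hsA := mem_powerset.mp hs
  have hdpos : 0 < d := by
    rw [hd]; exact prod_pos fun p hp => (hA p (hsA hp)).1.pos
  have hodd : Odd d := by
    rw [hd]
    refine prod_induction (fun p => p) Odd (fun a b ha hb => ha.mul hb) odd_one ?_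
    intro p hp
    exact (hA p (hsA hp)).1.odd_of_ne_two (hA p (hsA hp)).2
  have hb := hC2 s hs
  rw [← hd] at hb ⊢
  have hdr : (0 : ℝ) < d := Nat.cast_pos.mpr hdpos
  have hMr : (1 : ℝ) ≤ M := by exact_mod_cast hM
  obtain ⟨P, hP⟩ : ∃ P : ℝ, P = (∏ p ∈ A \ s, ε / p) * ∏ p ∈ s, (1 + 1 / Real.sqrt (p : ℝ)) :=
    ⟨_, rfl⟩
  rw [← hP] at hb ⊢
  have hP0 : 0 ≤ P / Real.sqrt d := (norm_nonneg _).trans (hb 0)
  have key : ∀ a ∈ Rd d, ‖C s a *
      ((ee (k₀ * ((a : ℝ) / (d : ℝ) - t)) * ∑ i ∈ range M, ∑ j ∈ range M,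
          ee (((i : ℝ) - j) * ((a : ℝ) / (d : ℝ) - t))) *
        ∏ l, ∑ i ∈ range M', ∑ j ∈ range M',
          ee (((i : ℝ) - j) * x l - ((i : ℝ) - j) ^ 2 * ((a : ℝ) / (d : ℝ))))‖ ≤
      P / Real.sqrt d * (M * fej M ((a : ℝ) / d - t)) *
        (10 * M' * (M' + d) / Real.sqrt d) ^ r := by
    intro a ha
    unfold Rd at ha
    rw [mem_filter, mem_range] at ha
    have hfn : 0 ≤ fej M ((a : ℝ) / d - t) := hfej.2.2.2.2.1 M _
    rw [norm_mul, norm_mul, norm_mul, hfej.2.1, one_mul, hfej.2.2.2.2.2.2.2.1 M _ hM,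
      Complex.norm_real, Real.norm_of_nonneg (by positivity), norm_prod,
      mul_assoc (P / Real.sqrt (d : ℝ))]
    apply mul_le_mul (hb a) _ (by positivity) hP0
    apply mul_le_mul_of_nonneg_left _ (by positivity)
    calc ∏ l : Fin r, ‖∑ i ∈ range M', ∑ j ∈ range M',
          ee (((i : ℝ) - j) * x l - ((i : ℝ) - j) ^ 2 * ((a : ℝ) / (d : ℝ)))‖
        ≤ ∏ _l : Fin r, (10 * M' * (M' + d) / Real.sqrt d) := by
          apply prod_le_prod
          · intro l _; exact norm_nonneg _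
          · intro l _
            have hco : IsCoprime ((a : ℕ) : ℤ) (d : ℤ) := Nat.isCoprime_iff_coprime.mpr ha.2.symm
            have := hweyl d M' a (x l) hodd hco hM'
            simpa using this
      _ = (10 * M' * (M' + d) / Real.sqrt d) ^ r := by
          rw [prod_const, card_univ, Fintype.card_fin]
  refine ((norm_sum_le _ _).trans (sum_le_sum key)).trans (le_of_eq ?_)
  rw [← sum_mul, ← mul_sum, ← mul_sum]
  have hT : ∑ a ∈ Rd d, fej M ((a : ℝ) / d - t) = TT M d t := rfl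
  rw [hT]
  unfold ff
  ring

end Pool.Agent.Helper34.AS
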